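import Mathlib

namespace Pool.Agent.H.MP_280d4a_an
open MeasureTheory Set

theorem arcL (U D X : ℝ → ℝ) (α w : ℝ) (hm : Measurable D)
    (hd : ∀ x ∈ Ioc α w, HasDerivAt U (D x) x) (hc : ContinuousOn D (Ioc α w))
    (ha : StrictAntiOn D (Ioc α w)) (hw : D w = 0)
    (hX : ∀ y, 0 < y → X y ∈ Ioo α w ∧ D (X y) = y) :
    ∫⁻ x in Ioo α w, ENNReal.ofReal (U w - U x) =
      ∫⁻ y in Ioi (0:ℝ), ENNReal.ofReal ((X y - α)^2 / 2) := by
  have hαw : α < w := (hX 1 one_pos).1.1.trans (hX 1 one_pos).1.2
  have Dpos : ∀ s ∈ Ioo α w, 0 ≤ D s := fun s hs => by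
    rw [← hw]; exact (ha ⟨hs.1, hs.2.le⟩ ⟨hαw, le_rfl⟩ hs.2).le
  have s1 : ∀ x ∈ Ioo α w, ENNReal.ofReal (U w - U x) =
      ∫⁻ s in Ioo α w, (if x < s then ENNReal.ofReal (D s) else 0) := by
    intro x hx
    have sub : uIcc x w ⊆ Ioc α w := by
      rw [uIcc_of_le hx.2.le]; exact fun s hs => ⟨hx.1.trans_le hs.1, hs.2⟩
    have hi : IntervalIntegrable D volume x w := (hc.mono sub).intervalIntegrable
    rw [← intervalIntegral.integral_eq_sub_of_hasDerivAt (fun s hs => hd s (sub hs)) hi,
      intervalIntegral.integral_of_le hx.2.le, integral_Ioc_eq_integral_Ioo,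
      ofReal_integral_eq_lintegral_ofReal
        ((intervalIntegrable_iff_integrableOn_Ioo_of_le hx.2.le).mp hi)
        ((ae_restrict_iff' measurableSet_Ioo).mpr (Filter.Eventually.of_forall
          (fun s hs => Dpos s ⟨hx.1.trans hs.1, hs.2⟩)))]
    have e : (fun s => if x < s then ENNReal.ofReal (D s) else 0) =
        (Ioi x).indicator (fun s => ENNReal.ofReal (D s)) := by
      ext s; simp [indicator]
    rw [e, lintegral_indicator measurableSet_Ioi, Measure.restrict_restrict measurableSet_Ioi]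
    have : Ioi x ∩ Ioo α w = Ioo x w := by
      ext s; simp only [mem_inter_iff, mem_Ioi, mem_Ioo]
      exact ⟨fun h => ⟨h.1, h.2.2⟩, fun h => ⟨h.1, hx.1.trans h.1, h.2⟩⟩
    rw [this]
  rw [setLIntegral_congr_fun measurableSet_Ioo s1, lintegral_lintegral_swap (by
    refine Measurable.aemeasurable ?_
    exact Measurable.ite (measurableSet_lt measurable_fst measurable_snd)
      (ENNReal.measurable_ofReal.comp (hm.comp measurable_snd)) measurable_const)]
  have s2 : ∀ s ∈ Ioo α w, ∫⁻ x in Ioo α w, (if x < s then ENNReal.ofReal (D s) else 0) =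
      ENNReal.ofReal (s - α) * ENNReal.ofReal (D s) := by
    intro s hs
    have e : (fun x => if x < s then ENNReal.ofReal (D s) else 0) =
        (Iio s).indicator (fun _ => ENNReal.ofReal (D s)) := by
      ext x; simp [indicator]
    rw [e, lintegral_indicator measurableSet_Iio, Measure.restrict_restrict measurableSet_Iio]
    have : Iio s ∩ Ioo α w = Ioo α s := by
      ext x; simp only [mem_inter_iff, mem_Iio, mem_Ioo]
      exact ⟨fun h => ⟨h.2.1, h.1⟩, fun h => ⟨h.2, h.1, h.2.trans hs.2⟩⟩
    rw [this, setLIntegral_const, Real.volume_Ioo, mul_comm]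
  rw [setLIntegral_congr_fun measurableSet_Ioo s2]
  have mf : Measurable fun s : ℝ => ENNReal.ofReal (s - α) := by fun_prop
  have s3 := lintegral_withDensity_eq_lintegral_mul (volume.restrict (Ioo α w)) mf
    (g := fun s => ENNReal.ofReal (D s)) (ENNReal.measurable_ofReal.comp hm)
  simp only [Pi.mul_apply] at s3
  rw [← s3, lintegral_eq_lintegral_meas_lt _ ?_ hm.aemeasurable]
  · refine setLIntegral_congr_fun measurableSet_Ioi (fun y hy => ?_)
    obtain ⟨x1, x2⟩ := hX y hy
    have ms : MeasurableSet {a | y < D a} := measurableSet_lt measurable_const hm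
    have : {a | y < D a} ∩ Ioo α w = Ioo α (X y) := by
      ext s; simp only [mem_inter_iff, mem_ofPred_eq, mem_Ioo]
      constructor
      · rintro ⟨h1, h2, h3⟩
        refine ⟨h2, ?_⟩
        rw [← x2] at h1
        exact (ha.lt_iff_gt ⟨x1.1, x1.2.le⟩ ⟨h2, h3.le⟩).mp h1
      · rintro ⟨h1, h2⟩
        refine ⟨?_, h1, h2.trans x1.2⟩
        rw [← x2]
        exact ha ⟨h1, (h2.trans x1.2).le⟩ ⟨x1.1, x1.2.le⟩ h2
    show ((volume.restrict (Ioo α w)).withDensity fun s => ENNReal.ofReal (s - α)) {a | y < D a} = _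
    rw [withDensity_apply _ ms, Measure.restrict_restrict ms, this]
    have hi : IntervalIntegrable (fun s : ℝ => s - α) volume α (X y) :=
      (by fun_prop : Continuous fun s : ℝ => s - α).intervalIntegrable _ _
    rw [← ofReal_integral_eq_lintegral_ofReal
        ((intervalIntegrable_iff_integrableOn_Ioo_of_le x1.1.le).mp hi)
        ((ae_restrict_iff' measurableSet_Ioo).mpr (Filter.Eventually.of_forall
          (fun s hs => sub_nonneg.mpr hs.1.le))), ← integral_Ioc_eq_integral_Ioo,
      ← intervalIntegral.integral_of_le x1.1.le]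
    congr 1
    rw [intervalIntegral.integral_comp_sub_right (fun s => s) α]
    simp
  · refine (withDensity_absolutelyContinuous _ _).ae_le ?_
    exact (ae_restrict_iff' measurableSet_Ioo).mpr (Filter.Eventually.of_forall Dpos)

theorem arcR (U D X : ℝ → ℝ) (w β : ℝ) (hm : Measurable D)
    (hd : ∀ x ∈ Ico w β, HasDerivAt U (D x) x) (hc : ContinuousOn D (Ico w β))
    (ha : StrictAntiOn D (Ico w β)) (hw : D w = 0)
    (hX : ∀ y, 0 < y → X (-y) ∈ Ioo w β ∧ D (X (-y)) = -y) :
    ∫⁻ x in Ioo w β, ENNReal.ofReal (U w - U x) =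
      ∫⁻ y in Ioi (0:ℝ), ENNReal.ofReal ((β - X (-y))^2 / 2) := by
  have mem : ∀ x ∈ Ioc (-β) (-w), -x ∈ Ico w β := fun x hx =>
    ⟨by linarith [hx.2], by linarith [hx.1]⟩
  have h := arcL (fun x => U (-x)) (fun x => -D (-x)) (fun y => -X (-y)) (-β) (-w)
    (by fun_prop)
    (fun x hx => by
      have := (hd (-x) (mem x hx)).comp x (hasDerivAt_neg x)
      simpa [Function.comp_def] using this)
    ((hc.comp continuous_neg.continuousOn mem).neg)
    (fun x hx y hy hxy => neg_lt_neg (ha (mem y hy) (mem x hx) (neg_lt_neg hxy)))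
    (by simp [hw])
    (fun y hy => ⟨⟨by linarith [(hX y hy).1.2], by linarith [(hX y hy).1.1]⟩, by
      simp [(hX y hy).2]⟩)
  have e := (Measure.measurePreserving_neg (volume : Measure ℝ)).setLIntegral_comp_preimage_emb
    (MeasurableEquiv.neg ℝ).measurableEmbedding (fun x => ENNReal.ofReal (U w - U x)) (Ioo w β)
  rw [← e]
  have e2 : (Neg.neg ⁻¹' Ioo w β : Set ℝ) = Ioo (-β) (-w) := by
    ext x; simp only [mem_preimage, mem_Ioo]
    constructor <;> rintro ⟨h1, h2⟩ <;> constructor <;> linarith
  rw [e2]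
  simp only [neg_neg] at h
  rw [h]
  refine lintegral_congr (fun y => ?_)
  congr 1
  ring

/-- the model value -/
theorem model : ∫⁻ y in Ioi (0:ℝ), ENNReal.ofReal ((Real.pi - 2 * Real.arctan (2 * y))^2 / 2) =
    ENNReal.ofReal (Real.pi * Real.log 2) := by
  have sp : ∀ x ∈ Ioc (0:ℝ) Real.pi, 0 < Real.sin (x / 2) := fun x hx =>
    Real.sin_pos_of_pos_of_lt_pi (by linarith [hx.1]) (by linarith [hx.2, Real.pi_pos])
  have h := arcL (fun x => Real.log (Real.sin (x / 2)))
    (fun x => Real.cos (x / 2) / Real.sin (x / 2) / 2)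
    (fun y => Real.pi - 2 * Real.arctan (2 * y)) 0 Real.pi (by fun_prop)
    (fun x hx => by
      have := (((hasDerivAt_id x).div_const 2).sin).log (sp x hx).ne'
      simp only [id] at this
      refine this.congr_deriv ?_
      ring)
    (by
      refine ContinuousOn.div_const (ContinuousOn.div (by fun_prop) (by fun_prop)
        (fun x hx => (sp x hx).ne')) 2)
    (fun x hx y hy hxy => by
      have h1 := sp x hx
      have h2 := sp y hy
      have h3 : 0 < Real.sin (y / 2 - x / 2) :=
        Real.sin_pos_of_pos_of_lt_pi (by linarith) (by linarith [hx.1, hy.2, Real.pi_pos])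
      rw [Real.sin_sub] at h3
      refine div_lt_div_of_pos_right ?_ two_pos
      rw [div_lt_div_iff₀ h2 h1]
      linarith)
    (by simp)
    (fun y hy => by
      have a1 := Real.arctan_lt_pi_div_two (2 * y)
      have a2 : 0 < Real.arctan (2 * y) := Real.arctan_pos.mpr (by linarith)
      refine ⟨⟨by linarith, by linarith⟩, ?_⟩
      have e : (Real.pi - 2 * Real.arctan (2 * y)) / 2 = Real.pi / 2 - Real.arctan (2 * y) := by
        ring
      simp only [e, Real.cos_pi_div_two_sub, Real.sin_pi_div_two_sub]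
      rw [← Real.tan_eq_sin_div_cos, Real.tan_arctan]; ring)
  simp only [sub_zero, Real.sin_pi_div_two, Real.log_one, zero_sub] at h
  rw [← h]
  have hi : IntervalIntegrable (fun x => -Real.log (Real.sin (x / 2))) volume 0 Real.pi := by
    have := (intervalIntegrable_log_sin (a := 0) (b := Real.pi / 2)).comp_mul_right (c := 1 / 2)
    simp only [Function.comp_apply] at this
    have e1 : (0:ℝ) / (1 / 2) = 0 := by simp
    have e2 : Real.pi / 2 / (1 / 2) = Real.pi := by ring
    rw [e1, e2] at this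
    simpa [div_eq_mul_inv, Pi.neg_def] using this.neg
  rw [← ofReal_integral_eq_lintegral_ofReal
        ((intervalIntegrable_iff_integrableOn_Ioo_of_le Real.pi_pos.le).mp hi)
        ((ae_restrict_iff' measurableSet_Ioo).mpr (Filter.Eventually.of_forall
          (fun s hs => neg_nonneg.mpr (Real.log_nonpos (sp s ⟨hs.1, hs.2.le⟩).le
            (Real.sin_le_one _))))), ← integral_Ioc_eq_integral_Ioo,
      ← intervalIntegral.integral_of_le Real.pi_pos.le, intervalIntegral.integral_neg,
      intervalIntegral.integral_comp_div (fun x => Real.log (Real.sin x)) two_ne_zero]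
  simp only [zero_div, integral_log_sin_zero_pi_div_two, smul_eq_mul]
  congr 1
  ring

end Pool.Agent.H.MP_280d4a_an
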