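import Mathlib

namespace Pool.Agent.H.MP_280d4a_an
open Finset Polynomial Complex

theorem prod_id {ι : Type*} [DecidableEq ι] (s : Finset ι) (z w : ι → ℂ) (q : ι → ℂ) (v : ℂ)
    (hq : ∑ j ∈ s, q j = 1) (hw : Set.InjOn w s) (hne : ∀ k ∈ s, ∀ j ∈ s, w k ≠ z j)
    (hr : ∀ k ∈ s, ∑ j ∈ s, q j * (I * (w k + z j) / (w k - z j)) = v) :
    (v - I) * ∏ k ∈ s, w k = (v + I) * ∏ j ∈ s, z j := by
  have dz : (∏ j ∈ s, (X - C (z j))).degree = (s.card : WithBot ℕ) := by
    simp [degree_prod, degree_X_sub_C]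
  have dw : (∏ j ∈ s, (X - C (w j))).degree = (s.card : WithBot ℕ) := by
    simp [degree_prod, degree_X_sub_C]
  have mz : (∏ j ∈ s, (X - C (z j))).Monic := monic_prod_of_monic _ _ (fun j _ => monic_X_sub_C _)
  have mw : (∏ j ∈ s, (X - C (w j))).Monic := monic_prod_of_monic _ _ (fun j _ => monic_X_sub_C _)
  have d1 : ((∏ j ∈ s, (X - C (z j))) - ∏ j ∈ s, (X - C (w j))).degree < (s.card : WithBot ℕ) := by
    rw [← dz]
    exact degree_sub_lt_left (dz.trans dw.symm) mz.ne_zero (by rw [mz.leadingCoeff, mw.leadingCoeff])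
  have d2 : (∑ j ∈ s, C (2 * I * q j * z j) * ∏ l ∈ s.erase j, (X - C (z l))).degree < (s.card : WithBot ℕ) := by
    refine (degree_sum_le _ _).trans_lt ?_
    rw [Finset.sup_lt_iff (WithBot.bot_lt_coe _)]
    intro j hj
    refine (degree_mul_le _ _).trans_lt ?_
    have e : (∏ l ∈ s.erase j, (X - C (z l))).degree = ((s.erase j).card : WithBot ℕ) := by
      simp [degree_prod, degree_X_sub_C]
    rw [e]
    calc _ ≤ 0 + (((s.erase j).card : ℕ) : WithBot ℕ) := add_le_add_left degree_C_le _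
      _ < _ := by rw [zero_add]; exact_mod_cast Finset.card_erase_lt_of_mem hj
  have key : C (I - v) * ((∏ j ∈ s, (X - C (z j))) - ∏ j ∈ s, (X - C (w j))) +
      ∑ j ∈ s, C (2 * I * q j * z j) * ∏ l ∈ s.erase j, (X - C (z l)) = 0 := by
    refine Polynomial.eq_zero_of_degree_lt_of_eval_index_eq_zero s hw ?_ ?_
    · refine (degree_add_le _ _).trans_lt (max_lt ?_ d2)
      refine (degree_mul_le _ _).trans_lt ?_
      calc _ ≤ 0 + ((∏ j ∈ s, (X - C (z j))) - ∏ j ∈ s, (X - C (w j))).degree :=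
            add_le_add_left degree_C_le _
        _ < _ := by rw [zero_add]; exact d1
    · intro k hk
      simp only [eval_add, eval_mul, eval_sub, eval_C, eval_prod, eval_X, eval_finsetSum]
      rw [Finset.prod_eq_zero (f := fun j => w k - w j) hk (sub_self _), sub_zero]
      have e : ∀ j ∈ s, 2 * I * q j * z j * ∏ l ∈ s.erase j, (w k - z l) =
          (q j * (I * (w k + z j) / (w k - z j)) - q j * I) * ∏ l ∈ s, (w k - z l) := by
        intro j hj
        have := sub_ne_zero.mpr (hne k hk j hj)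
        rw [← Finset.mul_prod_erase s _ hj]
        field_simp; ring
      rw [Finset.sum_congr rfl e, ← Finset.sum_mul, Finset.sum_sub_distrib, hr k hk,
        ← Finset.sum_mul, hq]
      ring
  have k0 := congrArg (eval 0) key
  simp only [eval_add, eval_mul, eval_sub, eval_C, eval_prod, eval_X, eval_finsetSum, zero_sub,
    eval_zero] at k0
  have e : ∀ j ∈ s, 2 * I * q j * z j * ∏ l ∈ s.erase j, (-z l) =
      q j * (-(2 * I) * ∏ l ∈ s, (-z l)) := by
    intro j hj
    rw [← Finset.mul_prod_erase s _ hj]; ring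
  rw [Finset.sum_congr rfl e, ← Finset.sum_mul, hq, Finset.prod_neg, Finset.prod_neg] at k0
  have c : ((-1:ℂ))^s.card ≠ 0 := pow_ne_zero _ (by norm_num)
  refine mul_left_cancel₀ c ?_
  linear_combination k0

theorem half (a b : ℝ) :
    exp (a * I) - exp (b * I) = 2 * I * (Real.sin ((a - b) / 2) : ℝ) * exp (((a + b) / 2 : ℝ) * I) ∧
    exp (a * I) + exp (b * I) = 2 * (Real.cos ((a - b) / 2) : ℝ) * exp (((a + b) / 2 : ℝ) * I) := by
  have e1 : exp (a * I) = exp (((a - b) / 2 : ℝ) * I) * exp (((a + b) / 2 : ℝ) * I) := by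
    rw [← exp_add]; congr 1; push_cast; ring
  have e2 : exp (b * I) = exp (-((a - b) / 2 : ℝ) * I) * exp (((a + b) / 2 : ℝ) * I) := by
    rw [← exp_add]; congr 1; push_cast; ring
  rw [e1, e2, exp_mul_I ((a - b) / 2 : ℝ), exp_mul_I (-((a - b) / 2 : ℝ)), cos_neg, sin_neg,
    ofReal_sin, ofReal_cos]
  constructor <;> ring

theorem cot_eq (a b : ℝ) (h : Real.sin ((a - b) / 2) ≠ 0) :
    exp (a * I) ≠ exp (b * I) ∧
    I * (exp (a * I) + exp (b * I)) / (exp (a * I) - exp (b * I)) =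
      ((Real.cos ((a - b) / 2) / Real.sin ((a - b) / 2) : ℝ) : ℂ) := by
  obtain ⟨h1, h2⟩ := half a b
  have c : ((Real.sin ((a - b) / 2) : ℝ) : ℂ) ≠ 0 := ofReal_ne_zero.mpr h
  have c2 := exp_ne_zero (((a + b) / 2 : ℝ) * I)
  constructor
  · rw [← sub_ne_zero, h1]
    exact mul_ne_zero (mul_ne_zero (mul_ne_zero two_ne_zero I_ne_zero) c) c2
  · rw [h1, h2, ofReal_div (Real.cos ((a - b) / 2))]
    field_simp

theorem boole (n : ℕ) (θ x q : ℕ → ℝ) (v : ℝ) (hq : ∑ j ∈ range n, q j = 1)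
    (hx : ∀ k < n, ∀ l < n, k ≠ l → Real.sin ((x k - x l) / 2) ≠ 0)
    (hne : ∀ k < n, ∀ j < n, Real.sin ((x k - θ j) / 2) ≠ 0)
    (hr : ∀ k < n, ∑ j ∈ range n, q j * (Real.cos ((x k - θ j) / 2) / Real.sin ((x k - θ j) / 2)) = v) :
    ∃ m : ℤ, ∑ k ∈ range n, (x k - θ k) = Real.pi - 2 * Real.arctan v + m * (2 * Real.pi) := by
  have h := prod_id (range n) (fun j => exp (θ j * I)) (fun k => exp (x k * I))
    (fun j => (q j : ℂ)) v (by exact_mod_cast hq)
    (fun k hk l hl e => by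
      by_contra hkl
      exact (cot_eq _ _ (hx k (by simpa using hk) l (by simpa using hl) hkl)).1 e)
    (fun k hk j hj => (cot_eq _ _ (hne k (by simpa using hk) j (by simpa using hj))).1)
    (fun k hk => by
      rw [← hr k (by simpa using hk), ofReal_sum]
      refine Finset.sum_congr rfl (fun j hj => ?_)
      rw [(cot_eq _ _ (hne k (by simpa using hk) j (by simpa using hj))).2, ofReal_mul])
  rw [← exp_sum, ← exp_sum] at h
  obtain ⟨t, ht⟩ : ∃ t, t = Real.pi - 2 * Real.arctan v := ⟨_, rfl⟩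
  have e : (t - 0) / 2 = Real.pi / 2 - Real.arctan v := by rw [ht]; ring
  have cp := Real.cos_arctan_pos v
  obtain ⟨c1, c2⟩ := cot_eq t 0 (by rw [e, Real.sin_pi_div_two_sub]; exact cp.ne')
  rw [e, Real.sin_pi_div_two_sub, Real.cos_pi_div_two_sub, ← Real.tan_eq_sin_div_cos,
    Real.tan_arctan] at c2
  simp only [ofReal_zero, zero_mul, exp_zero] at c1 c2
  rw [div_eq_iff (sub_ne_zero.mpr c1)] at c2
  have vi : (v : ℂ) - I ≠ 0 := by
    intro hh
    have := congrArg Complex.im hh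
    simp at this
  have h2 : exp (∑ k ∈ range n, (x k : ℂ) * I) = exp (t * I + ∑ k ∈ range n, (θ k : ℂ) * I) := by
    rw [exp_add]
    refine mul_left_cancel₀ vi ?_
    rw [h]
    linear_combination (exp (∑ k ∈ range n, (θ k : ℂ) * I)) * c2
  obtain ⟨m, hm⟩ := exp_eq_exp_iff_exists_int.mp h2
  refine ⟨m, ?_⟩
  rw [← ht, Finset.sum_sub_distrib]
  have := congrArg Complex.im hm
  simp [im_sum] at this
  linarith

end Pool.Agent.H.MP_280d4a_an
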