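import Mathlib
import Pool.Agent.H.MP_280d4a_an.A
import Pool.Agent.H.MP_280d4a_an.B

namespace Pool.Agent.H.MP_280d4a_an
open MeasureTheory Set Filter Topology Real

noncomputable def V (n : ℕ) (θ q : ℕ → ℝ) (x : ℝ) : ℝ :=
  ∑ j ∈ Finset.range n, q j * log (sin ((x - θ j) / 2))

noncomputable def D (n : ℕ) (θ q : ℕ → ℝ) (x : ℝ) : ℝ :=
  (∑ j ∈ Finset.range n, q j * (cos ((x - θ j) / 2) / sin ((x - θ j) / 2))) / 2

theorem sin_ne (a : ℝ) (h0 : a ≠ 0) (h1 : -(2 * π) < a) (h2 : a < 2 * π) : sin (a / 2) ≠ 0 := by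
  rcases lt_or_gt_of_ne h0 with h | h
  · exact (sin_neg_of_neg_of_neg_pi_lt (by linarith) (by linarith)).ne
  · exact (sin_pos_of_pos_of_lt_pi (by linarith) (by linarith)).ne'

theorem V_deriv (n : ℕ) (θ q : ℕ → ℝ) (x : ℝ) (h : ∀ j < n, sin ((x - θ j) / 2) ≠ 0) :
    HasDerivAt (V n θ q) (D n θ q x) x := by
  unfold V D
  rw [Finset.sum_div]
  refine HasDerivAt.fun_sum (fun j hj => ?_)
  have := (((((hasDerivAt_id x).sub_const (θ j)).div_const 2).sin).log
    (h j (Finset.mem_range.mp hj))).const_mul (q j)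
  simp only [id] at this
  refine this.congr_deriv ?_
  ring

theorem D_cont (n : ℕ) (θ q : ℕ → ℝ) (s : Set ℝ) (h : ∀ x ∈ s, ∀ j < n, sin ((x - θ j) / 2) ≠ 0) :
    ContinuousOn (D n θ q) s := by
  unfold D
  refine ContinuousOn.div_const (continuousOn_finsetSum _ (fun j hj => ?_)) 2
  exact continuousOn_const.mul (ContinuousOn.div (by fun_prop) (by fun_prop)
    (fun x hx => h x hx j (Finset.mem_range.mp hj)))

theorem D_meas (n : ℕ) (θ q : ℕ → ℝ) : Measurable (D n θ q) := by
  unfold D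
  fun_prop

theorem cot_top : Tendsto (fun x : ℝ => cos (x / 2) / sin (x / 2)) (𝓝[>] 0) atTop := by
  have h1 : Tendsto (fun x : ℝ => cos (x / 2)) (𝓝[>] 0) (𝓝 1) := by
    have : Tendsto (fun x : ℝ => cos (x / 2)) (𝓝 0) (𝓝 (cos (0 / 2))) :=
      (by fun_prop : Continuous fun x : ℝ => cos (x / 2)).tendsto 0
    simpa using this.mono_left nhdsWithin_le_nhds
  have h2 : Tendsto (fun x : ℝ => sin (x / 2)) (𝓝[>] 0) (𝓝[>] 0) := by
    refine tendsto_nhdsWithin_iff.mpr ⟨?_, ?_⟩
    · have : Tendsto (fun x : ℝ => sin (x / 2)) (𝓝 0) (𝓝 (sin (0 / 2))) :=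
        (by fun_prop : Continuous fun x : ℝ => sin (x / 2)).tendsto 0
      simpa using this.mono_left nhdsWithin_le_nhds
    · filter_upwards [Ioo_mem_nhdsGT pi_pos] with x hx
      exact sin_pos_of_pos_of_lt_pi (by linarith [hx.1]) (by linarith [hx.2, pi_pos])
  simp only [div_eq_mul_inv (cos _)]
  exact h1.pos_mul_atTop one_pos (tendsto_inv_nhdsGT_zero.comp h2)

theorem blow (n : ℕ) (θ q : ℕ → ℝ) (a : ℝ) (i : ℕ) (hi : i < n) (hq : 0 < q i)
    (h0 : sin ((a - θ i) / 2) = 0) (h1 : ∀ j < n, j ≠ i → sin ((a - θ j) / 2) ≠ 0) :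
    Tendsto (D n θ q) (𝓝[>] a) atTop ∧ Tendsto (D n θ q) (𝓝[<] a) atBot := by
  have e : ∀ x, D n θ q x = (q i * (cos ((x - a) / 2) / sin ((x - a) / 2)) +
      ∑ j ∈ (Finset.range n).erase i, q j * (cos ((x - θ j) / 2) / sin ((x - θ j) / 2))) / 2 := by
    intro x
    unfold D
    rw [← Finset.add_sum_erase _ _ (Finset.mem_range.mpr hi)]
    have c : cos ((a - θ i) / 2) ≠ 0 := by
      intro hc
      have := sin_sq_add_cos_sq ((a - θ i) / 2)
      rw [h0, hc] at this
      norm_num at this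
    rw [show (x - θ i) / 2 = (x - a) / 2 + (a - θ i) / 2 by ring, cos_add, sin_add, h0,
      mul_zero, mul_zero, sub_zero, add_zero, mul_div_mul_right _ _ c]
  have hc : ContinuousAt (fun x => ∑ j ∈ (Finset.range n).erase i,
      q j * (cos ((x - θ j) / 2) / sin ((x - θ j) / 2))) a := by
    refine tendsto_finsetSum _ (fun j hj => ?_)
    rw [Finset.mem_erase, Finset.mem_range] at hj
    have c1 : ContinuousAt (fun x => cos ((x - θ j) / 2)) a := by fun_prop
    have c2 : ContinuousAt (fun x => sin ((x - θ j) / 2)) a := by fun_prop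
    exact (continuousAt_const.mul (c1.div c2 (h1 j hj.2 hj.1))).tendsto
  rw [funext e]
  constructor
  · have t : Tendsto (fun x => x - a) (𝓝[>] a) (𝓝[>] 0) := by
      refine tendsto_nhdsWithin_iff.mpr ⟨?_, ?_⟩
      · have : Tendsto (fun x : ℝ => x - a) (𝓝 a) (𝓝 (a - a)) :=
          (by fun_prop : Continuous fun x : ℝ => x - a).tendsto a
        simpa using this.mono_left nhdsWithin_le_nhds
      · filter_upwards [self_mem_nhdsWithin] with x hx
        exact mem_Ioi.mpr (sub_pos.mpr (mem_Ioi.mp hx))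
    exact (((cot_top.comp t).const_mul_atTop hq).atTop_add
      (hc.tendsto.mono_left nhdsWithin_le_nhds)).atTop_div_const two_pos
  · have t : Tendsto (fun x => a - x) (𝓝[<] a) (𝓝[>] 0) := by
      refine tendsto_nhdsWithin_iff.mpr ⟨?_, ?_⟩
      · have : Tendsto (fun x : ℝ => a - x) (𝓝 a) (𝓝 (a - a)) :=
          (by fun_prop : Continuous fun x : ℝ => a - x).tendsto a
        simpa using this.mono_left nhdsWithin_le_nhds
      · filter_upwards [self_mem_nhdsWithin] with x hx
        exact mem_Ioi.mpr (sub_pos.mpr (mem_Iio.mp hx))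
    have t2 : Tendsto (fun x => cos ((x - a) / 2) / sin ((x - a) / 2)) (𝓝[<] a) atBot := by
      refine (tendsto_neg_atTop_atBot.comp (cot_top.comp t)).congr (fun x => ?_)
      simp only [Function.comp_apply]
      rw [show (a - x) / 2 = -((x - a) / 2) by ring, cos_neg, sin_neg, div_neg, neg_neg]
    exact ((t2.const_mul_atBot hq).atBot_add
      (hc.tendsto.mono_left nhdsWithin_le_nhds)).atBot_div_const two_pos

theorem int_log (c a b : ℝ) :
    IntervalIntegrable (fun x => log (sin ((x - c) / 2))) volume a b :=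
  MeromorphicOn.intervalIntegrable_log (f := fun x => sin ((x - c) / 2))
    (fun x _ => (analyticAt_sin.comp (by fun_prop)).meromorphicAt)

theorem val_log (c a : ℝ) :
    ∫ x in a..(a + 2 * π), log (sin ((x - c) / 2)) = -(2 * π * log 2) := by
  have hp : Function.Periodic (fun x => log (sin ((x - c) / 2))) (2 * π) := by
    intro x
    simp only
    rw [show (x + 2 * π - c) / 2 = (x - c) / 2 + π by ring, sin_add_pi, log_neg_eq_log]
  rw [hp.intervalIntegral_add_eq a c,
    intervalIntegral.integral_comp_sub_right (fun x => log (sin (x / 2))) c,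
    intervalIntegral.integral_comp_div (fun x => log (sin x)) two_ne_zero]
  rw [show (c - c) / 2 = 0 by ring, show (c + 2 * π - c) / 2 = π by ring, integral_log_sin_zero_pi]
  simp only [smul_eq_mul]
  ring

theorem V_int (n : ℕ) (θ q : ℕ → ℝ) (a b : ℝ) : IntervalIntegrable (V n θ q) volume a b := by
  have := IntervalIntegrable.sum (Finset.range n)
    (fun j _ => (int_log (θ j) a b).const_mul (q j))
  refine this.congr (fun x _ => ?_)
  simp [V]

theorem V_val (n : ℕ) (θ q : ℕ → ℝ) (a : ℝ) (hq : ∑ j ∈ Finset.range n, q j = 1) :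
    ∫ x in a..(a + 2 * π), V n θ q x = -(2 * π * log 2) := by
  unfold V
  rw [intervalIntegral.integral_finsetSum (fun j _ => (int_log (θ j) _ _).const_mul (q j))]
  simp only [intervalIntegral.integral_const_mul, val_log]
  rw [← Finset.sum_mul, hq, one_mul]

theorem cs (n : ℕ) (hn : 0 < n) (a : ℕ → ℝ → ℝ) (hm : ∀ k < n, Measurable (a k))
    (h0 : ∀ k < n, ∀ y, 0 < y → 0 < a k y)
    (h1 : ∀ y, 0 < y → ∃ m : ℤ, ∑ k ∈ Finset.range n, a k y =
      π - 2 * arctan (2 * y) + m * (2 * π)) :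
    ENNReal.ofReal (π * log 2 / n) ≤
      ∑ k ∈ Finset.range n, ∫⁻ y in Ioi (0:ℝ), ENNReal.ofReal ((a k y)^2 / 2) := by
  have n0 : (0:ℝ) < n := by exact_mod_cast hn
  rw [← lintegral_finsetSum _ (fun k hk => by
    have := hm k (Finset.mem_range.mp hk)
    fun_prop), div_eq_inv_mul, ENNReal.ofReal_mul (by positivity), ← model,
    ← lintegral_const_mul' _ _ ENNReal.ofReal_ne_top]
  refine setLIntegral_mono' measurableSet_Ioi (fun y hy => ?_)
  rw [← ENNReal.ofReal_mul (by positivity),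
    ← ENNReal.ofReal_sum_of_nonneg (fun k _ => by positivity)]
  refine ENNReal.ofReal_le_ofReal ?_
  obtain ⟨m, hm⟩ := h1 y hy
  have p : 0 < ∑ k ∈ Finset.range n, a k y :=
    Finset.sum_pos (fun k hk => h0 k (Finset.mem_range.mp hk) y hy) ⟨0, Finset.mem_range.mpr hn⟩
  have a1 := arctan_lt_pi_div_two (2 * y)
  have a2 : 0 < arctan (2 * y) := arctan_pos.mpr (by linarith [mem_Ioi.mp hy])
  have m0 : (0:ℝ) ≤ m := by
    have : (-1:ℝ) < m := by
      by_contra hh
      have := mul_le_mul_of_nonneg_right (not_lt.mp hh) (by positivity : 0 ≤ 2 * π)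
      linarith [pi_pos]
    have : (-1:ℤ) < m := by exact_mod_cast this
    exact_mod_cast (by omega : (0:ℤ) ≤ m)
  have t1 : π - 2 * arctan (2 * y) ≤ ∑ k ∈ Finset.range n, a k y := by
    have : 0 ≤ (m:ℝ) * (2 * π) := by positivity
    linarith
  have t2 := pow_le_pow_left₀ (by linarith) t1 2
  have t3 := sq_sum_le_card_mul_sum_sq (s := Finset.range n) (f := fun k => a k y)
  rw [Finset.card_range] at t3
  rw [← Finset.sum_div, inv_mul_le_iff₀ n0]
  linarith

theorem core (n : ℕ) (hn : 0 < n) (θ q : ℕ → ℝ) (hθ : ∀ i j, i < j → j ≤ n → θ i < θ j)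
    (hp : θ n = θ 0 + 2 * π) (q0 : ∀ j < n, 0 < q j) (q1 : ∑ j ∈ Finset.range n, q j = 1) (M : ℝ)
    (hM : ∀ x, (∀ j < n, sin ((x - θ j) / 2) ≠ 0) → V n θ q x ≤ M) :
    log 2 / n ≤ M + log 2 := by
  have mono : ∀ i j, i ≤ j → j ≤ n → θ i ≤ θ j := fun i j h1 h2 => by
    rcases h1.eq_or_lt with h | h
    · rw [h]
    · exact (hθ i j h h2).le
  have sg : ∀ k < n, ∀ x ∈ Ioo (θ k) (θ (k + 1)), ∀ j < n,
      (j ≤ k → 0 < sin ((x - θ j) / 2)) ∧ (k < j → sin ((x - θ j) / 2) < 0) := by
    intro k hk x hx j hj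
    have b1 := mono 0 j (Nat.zero_le _) hj.le
    have b2 := mono (k + 1) n hk le_rfl
    have b3 := mono 0 k (Nat.zero_le _) hk.le
    have b4 := hθ j n hj le_rfl
    constructor
    · intro h
      have := mono j k h hk.le
      exact sin_pos_of_pos_of_lt_pi (by linarith [hx.1]) (by linarith [hx.2])
    · intro h
      have := mono (k + 1) j h hj.le
      exact sin_neg_of_neg_of_neg_pi_lt (by linarith [hx.2]) (by linarith [hx.1])
  have nz : ∀ k < n, ∀ x ∈ Ioo (θ k) (θ (k + 1)), ∀ j < n, sin ((x - θ j) / 2) ≠ 0 := by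
    intro k hk x hx j hj
    rcases le_or_gt j k with h | h
    · exact ((sg k hk x hx j hj).1 h).ne'
    · exact ((sg k hk x hx j hj).2 h).ne
  have anti : ∀ k < n, StrictAntiOn (D n θ q) (Ioo (θ k) (θ (k + 1))) := by
    intro k hk x hx y hy hxy
    unfold D
    refine div_lt_div_of_pos_right (Finset.sum_lt_sum_of_nonempty ⟨0, Finset.mem_range.mpr hn⟩
      (fun j hj => ?_)) two_pos
    rw [Finset.mem_range] at hj
    refine mul_lt_mul_of_pos_left ?_ (q0 j hj)
    have b2 := mono (k + 1) n hk le_rfl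
    have b3 := mono 0 k (Nat.zero_le _) hk.le
    have h3 : 0 < sin ((y - θ j) / 2 - (x - θ j) / 2) :=
      sin_pos_of_pos_of_lt_pi (by linarith) (by linarith [hx.1, hy.2])
    rw [sin_sub] at h3
    rcases le_or_gt j k with h | h
    · rw [div_lt_div_iff₀ ((sg k hk y hy j hj).1 h) ((sg k hk x hx j hj).1 h)]
      linarith
    · rw [← neg_div_neg_eq, ← neg_div_neg_eq (cos ((x - θ j) / 2)),
        div_lt_div_iff₀ (neg_pos.mpr ((sg k hk y hy j hj).2 h))
          (neg_pos.mpr ((sg k hk x hx j hj).2 h))]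
      linarith
  have node : ∀ k < n, ∀ j < n, j ≠ k → sin ((θ k - θ j) / 2) ≠ 0 := by
    intro k hk j hj hjk
    have b1 := mono 0 j (Nat.zero_le _) hj.le
    have b3 := mono 0 k (Nat.zero_le _) hk.le
    have b4 := hθ j n hj le_rfl
    have b5 := hθ k n hk le_rfl
    refine sin_ne _ (sub_ne_zero.mpr ?_) (by linarith) (by linarith)
    rcases lt_or_gt_of_ne hjk with h | h
    · exact (hθ j k h hk.le).ne'
    · exact (hθ k j h hj.le).ne
  have surj : ∀ k < n, ∀ y, ∃ x, x ∈ Ioo (θ k) (θ (k + 1)) ∧ D n θ q x = y := by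
    intro k hk y
    have lt := hθ k (k + 1) (Nat.lt_succ_self k) hk
    have t1 := (blow n θ q (θ k) k hk (q0 k hk) (by simp) (node k hk)).1
    have t2 : Tendsto (D n θ q) (𝓝[<] (θ (k + 1))) atBot := by
      rcases (Nat.succ_le_of_lt hk).eq_or_lt with h | h
      · rw [show k + 1 = n from h]
        refine (blow n θ q (θ n) 0 hn (q0 0 hn) ?_ (fun j hj hj0 => ?_)).2
        · rw [hp, show (θ 0 + 2 * π - θ 0) / 2 = π by ring, sin_pi]
        · have b4 := hθ j n hj le_rfl
          have b5 := hθ 0 j (Nat.pos_of_ne_zero hj0) hj.le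
          exact (sin_pos_of_pos_of_lt_pi (by linarith) (by linarith)).ne'
      · exact (blow n θ q (θ (k + 1)) (k + 1) h (q0 _ h) (by simp) (node (k + 1) h)).2
    exact isPreconnected_Ioo.intermediate_value_Iii (le_principal_iff.mpr (Ioo_mem_nhdsLT lt))
      (le_principal_iff.mpr (Ioo_mem_nhdsGT lt)) (D_cont n θ q _ (nz k hk)) t2 t1 (mem_univ y)
  choose! X X1 X2 using surj
  have Xlt : ∀ k < n, ∀ y y', y < y' → X k y' < X k y := by
    intro k hk y y' h
    refine ((anti k hk).lt_iff_gt (X1 k hk y) (X1 k hk y')).mp ?_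
    rw [X2 k hk, X2 k hk]; exact h
  have Xm : ∀ k < n, Measurable (X k) := fun k hk =>
    (StrictAnti.antitone (fun y y' h => Xlt k hk y y' h)).measurable
  have bo : ∀ y, ∃ m : ℤ, ∑ k ∈ Finset.range n, (X k y - θ k) =
      π - 2 * arctan (2 * y) + m * (2 * π) := by
    intro y
    refine boole n θ (fun k => X k y) q (2 * y) q1 (fun k hk l hl hkl => ?_)
      (fun k hk => nz k hk _ (X1 k hk y)) (fun k hk => ?_)
    · have b1 := mono 0 l (Nat.zero_le _) hl.le
      have b2 := mono (k + 1) n hk le_rfl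
      have b3 := mono 0 k (Nat.zero_le _) hk.le
      have b4 := mono (l + 1) n hl le_rfl
      have c1 := X1 k hk y
      have c2 := X1 l hl y
      refine sin_ne _ (sub_ne_zero.mpr ?_) (by linarith [c1.1, c2.2]) (by linarith [c1.2, c2.1])
      rcases lt_or_gt_of_ne hkl with h | h
      · have := mono (k + 1) l h hl.le
        exact ne_of_lt (by linarith [c1.2, c2.1])
      · have := mono (l + 1) k h hk.le
        exact ne_of_gt (by linarith [c2.2, c1.1])
    · have := X2 k hk y
      unfold D at this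
      linarith
  have L := cs n hn (fun k y => X k y - θ k) (fun k hk => (Xm k hk).sub_const _)
    (fun k hk y _ => sub_pos.mpr (X1 k hk y).1) (fun y _ => bo y)
  have R := cs n hn (fun k y => θ (k + 1) - X k (-y))
    (fun k hk => ((Xm k hk).comp measurable_neg).const_sub _)
    (fun k hk y _ => sub_pos.mpr (X1 k hk (-y)).2) (fun y _ => by
      obtain ⟨m, hm⟩ := bo (-y)
      refine ⟨-m, ?_⟩
      have e1 := Finset.sum_range_succ θ n
      have e2 := Finset.sum_range_succ' θ n
      rw [Finset.sum_sub_distrib, mul_neg, arctan_neg] at hm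
      rw [Finset.sum_sub_distrib]
      push_cast
      linarith)
  have arc : ∀ k < n, (∫⁻ y in Ioi (0:ℝ), ENNReal.ofReal ((X k y - θ k)^2 / 2)) +
      (∫⁻ y in Ioi (0:ℝ), ENNReal.ofReal ((θ (k + 1) - X k (-y))^2 / 2)) ≤
      ENNReal.ofReal (∫ x in θ k..θ (k + 1), (M - V n θ q x)) := by
    intro k hk
    have w := X1 k hk 0
    have sL : Ioc (θ k) (X k 0) ⊆ Ioo (θ k) (θ (k + 1)) := fun x hx => ⟨hx.1, hx.2.trans_lt w.2⟩
    have sR : Ico (X k 0) (θ (k + 1)) ⊆ Ioo (θ k) (θ (k + 1)) :=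
      fun x hx => ⟨w.1.trans_le hx.1, hx.2⟩
    rw [← arcL (V n θ q) (D n θ q) (X k) (θ k) (X k 0) (D_meas n θ q)
        (fun x hx => V_deriv n θ q x (nz k hk x (sL hx)))
        ((D_cont n θ q _ (nz k hk)).mono sL) ((anti k hk).mono sL) (X2 k hk 0)
        (fun y hy => ⟨⟨(X1 k hk y).1, Xlt k hk 0 y hy⟩, X2 k hk y⟩),
      ← arcR (V n θ q) (D n θ q) (X k) (X k 0) (θ (k + 1)) (D_meas n θ q)
        (fun x hx => V_deriv n θ q x (nz k hk x (sR hx)))
        ((D_cont n θ q _ (nz k hk)).mono sR) ((anti k hk).mono sR) (X2 k hk 0)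
        (fun y hy => ⟨⟨Xlt k hk (-y) 0 (neg_neg_of_pos hy), (X1 k hk (-y)).2⟩, X2 k hk (-y)⟩),
      ← lintegral_union measurableSet_Ioo (by
        rw [Set.disjoint_left]; exact fun x h1 h2 => lt_asymm h1.2 h2.1)]
    have le := (w.1.trans w.2).le
    have hi : IntervalIntegrable (fun x => M - V n θ q x) volume (θ k) (θ (k + 1)) :=
      intervalIntegrable_const.sub (V_int n θ q _ _)
    rw [intervalIntegral.integral_of_le le, integral_Ioc_eq_integral_Ioo,
      ofReal_integral_eq_lintegral_ofReal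
        ((intervalIntegrable_iff_integrableOn_Ioo_of_le le).mp hi)
        ((ae_restrict_iff' measurableSet_Ioo).mpr (Eventually.of_forall
          (fun s hs => sub_nonneg.mpr (hM s (nz k hk s hs)))))]
    refine (lintegral_mono_set (t := Ioo (θ k) (θ (k + 1))) ?_).trans (lintegral_mono fun x => ?_)
    · rintro x (hx | hx)
      · exact sL ⟨hx.1, hx.2.le⟩
      · exact sR ⟨hx.1.le, hx.2⟩
    · exact ENNReal.ofReal_le_ofReal (by linarith [hM _ (nz k hk _ w)])
  have tot := Finset.sum_le_sum (s := Finset.range n) (fun k hk => arc k (Finset.mem_range.mp hk))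
  have nn : ∀ k ∈ Finset.range n, 0 ≤ ∫ x in θ k..θ (k + 1), (M - V n θ q x) := by
    intro k hk
    rw [Finset.mem_range] at hk
    have le := (hθ k (k + 1) (Nat.lt_succ_self k) hk).le
    rw [intervalIntegral.integral_of_le le, integral_Ioc_eq_integral_Ioo]
    exact setIntegral_nonneg measurableSet_Ioo (fun s hs => sub_nonneg.mpr (hM s (nz k hk s hs)))
  rw [Finset.sum_add_distrib, ← ENNReal.ofReal_sum_of_nonneg nn] at tot
  have n0 : (0:ℝ) < n := by exact_mod_cast hn
  have l2 : 0 < log 2 := log_pos one_lt_two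
  have fin := (add_le_add L R).trans tot
  rw [← ENNReal.ofReal_add (by positivity) (by positivity),
    ENNReal.ofReal_le_ofReal_iff (Finset.sum_nonneg nn),
    intervalIntegral.sum_integral_adjacent_intervals
      (fun k _ => intervalIntegrable_const.sub (V_int n θ q _ _)),
    intervalIntegral.integral_sub intervalIntegrable_const (V_int n θ q _ _), hp,
    V_val n θ q _ q1] at fin
  simp only [intervalIntegral.integral_const, smul_eq_mul] at fin
  refine le_of_mul_le_mul_left (a := 2 * π) ?_ (by positivity)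
  have : 2 * π * (log 2 / n) = π * log 2 / n + π * log 2 / n := by ring
  linarith

end Pool.Agent.H.MP_280d4a_an
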