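import Mathlib
import Pool.Agent.H.MP_280d4a_an.C

namespace Pool.Agent.H.MP_280d4a_an
open Real

theorem red {ι : Type*} (s : Finset ι) (hs : s.Nonempty) (a p : ι → ℝ)
    (ha : ∀ j, -π < a j ∧ a j ≤ π) (hp : ∀ j ∈ s, 0 < p j) (h1 : ∑ j ∈ s, p j = 1) (M : ℝ)
    (hM : ∀ x, (∀ j ∈ s, sin ((x - a j) / 2) ≠ 0) →
      ∑ j ∈ s, p j * log (sin ((x - a j) / 2)) ≤ M) :
    log 2 / s.card ≤ M + log 2 := by
  classical
  obtain ⟨S, hS⟩ : ∃ S : Finset ℝ, S = s.image a := ⟨_, rfl⟩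
  have hn : 0 < S.card := by rw [hS]; exact Finset.card_pos.mpr (hs.image a)
  have hle : S.card ≤ s.card := by rw [hS]; exact Finset.card_image_le
  obtain ⟨e, he⟩ : ∃ e : Fin S.card ↪o ℝ, e = S.orderEmbOfFin rfl := ⟨_, rfl⟩
  have em : ∀ i, e i ∈ S := fun i => by rw [he]; exact S.orderEmbOfFin_mem rfl i
  have eb : ∀ i, ∃ j ∈ s, a j = e i := fun i =>
    Finset.mem_image.mp (hS.le (em i))
  obtain ⟨θ, hθ⟩ : ∃ θ : ℕ → ℝ, ∀ k, θ k = if h : k < S.card then e ⟨k, h⟩ else e ⟨0, hn⟩ + 2 * π :=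
    ⟨_, fun _ => rfl⟩
  have t1 : ∀ k (h : k < S.card), θ k = e ⟨k, h⟩ := fun k h => by rw [hθ, dif_pos h]
  have sm : ∀ f : ℝ → ℝ, ∑ k ∈ Finset.range S.card, f (θ k) = ∑ t ∈ S, f t := by
    intro f
    rw [Finset.sum_range]
    conv_rhs => rw [← S.map_orderEmbOfFin_univ rfl, Finset.sum_map, ← he]
    exact Finset.sum_congr rfl (fun i _ => by rw [t1 i i.2]; rfl)
  obtain ⟨q, hq⟩ : ∃ q : ℝ → ℝ, ∀ t, q t = ∑ j ∈ s with a j = t, p j := ⟨_, fun _ => rfl⟩
  have sg : ∀ g : ℝ → ℝ, ∑ k ∈ Finset.range S.card, q (θ k) * g (θ k) = ∑ j ∈ s, p j * g (a j) := by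
    intro g
    rw [sm (fun t => q t * g t), ← Finset.sum_fiberwise_of_maps_to (s := s) (t := S) (g := a)
      (fun j hj => by rw [hS]; exact Finset.mem_image_of_mem a hj)]
    refine Finset.sum_congr rfl (fun t _ => ?_)
    rw [hq, Finset.sum_mul]
    exact Finset.sum_congr rfl (fun j hj => by rw [(Finset.mem_filter.mp hj).2])
  have c := core S.card hn θ (fun k => q (θ k)) (fun i j hij hj => ?_) ?_ (fun k hk => ?_) ?_ M
    (fun x hx => ?_)
  · refine le_trans (div_le_div_of_nonneg_left (log_pos one_lt_two).le ?_ ?_) c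
    · exact_mod_cast hn
    · exact_mod_cast hle
  · rw [t1 i (hij.trans_le hj)]
    rcases hj.eq_or_lt with h | h
    · rw [hθ, dif_neg (by omega)]
      obtain ⟨j1, _, e1⟩ := eb ⟨i, hij.trans_le hj⟩
      obtain ⟨j2, _, e2⟩ := eb ⟨0, hn⟩
      rw [← e1, ← e2]
      linarith [(ha j1).2, (ha j2).1]
    · rw [t1 j h]
      exact e.strictMono hij
  · rw [t1 0 hn, hθ, dif_neg (lt_irrefl _)]
  · obtain ⟨j, hj, e1⟩ := eb ⟨k, hk⟩
    rw [hq, t1 k hk]
    exact Finset.sum_pos (fun i hi => hp i (Finset.mem_filter.mp hi).1)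
      ⟨j, Finset.mem_filter.mpr ⟨hj, e1⟩⟩
  · simpa [h1] using sg (fun _ => 1)
  · unfold V
    rw [sg (fun t => log (sin ((x - t) / 2)))]
    refine hM x (fun j hj => ?_)
    have : a j ∈ Set.range e := by
      rw [he, S.range_orderEmbOfFin rfl, hS]
      exact Finset.mem_coe.mpr (Finset.mem_image_of_mem a hj)
    obtain ⟨i, hi⟩ := this
    have := hx i i.2
    rwa [t1 i i.2, Fin.eta, hi] at this

theorem nrm (a b : ℝ) :
    ‖Complex.exp (a * Complex.I) - Complex.exp (b * Complex.I)‖ = 2 * |sin ((a - b) / 2)| := by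
  rw [(half a b).1, norm_mul, norm_mul, norm_mul, Complex.norm_exp_ofReal_mul_I, Complex.norm_real]
  simp

theorem main (r : ℕ) (hr : 1 ≤ r) (z : Fin r → ℂ) (hz : ∀ j, ‖z j‖ = 1) (p : Fin r → ℝ)
    (hp : ∀ j, 0 ≤ p j) (hs : ∑ j, p j = r) :
    ∃ w : ℂ, ‖w‖ = 1 ∧ 2 ≤ ∏ j, ‖w - z j‖ ^ (p j) := by
  have r0 : (0:ℝ) < r := by exact_mod_cast hr
  have hc : Continuous fun w : ℂ => ∏ j, ‖w - z j‖ ^ (p j) :=
    continuous_finsetProd _ (fun j _ =>
      (by fun_prop : Continuous fun w : ℂ => ‖w - z j‖).rpow_const (fun _ => Or.inr (hp j)))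
  obtain ⟨w, hw, hm⟩ := (isCompact_sphere (0:ℂ) 1).exists_isMaxOn ⟨1, by simp⟩ hc.continuousOn
  refine ⟨w, by simpa using hw, ?_⟩
  obtain ⟨K, hK⟩ : ∃ K, K = ∏ j, ‖w - z j‖ ^ (p j) := ⟨_, rfl⟩
  have K0 : 0 ≤ K := by rw [hK]; exact Finset.prod_nonneg (fun j _ => by positivity)
  obtain ⟨s, hs'⟩ : ∃ s : Finset (Fin r), s = Finset.univ.filter (fun j => 0 < p j) := ⟨_, rfl⟩
  have ms : ∀ j, j ∈ s ↔ 0 < p j := fun j => by simp [hs']
  have sm : ∀ g : Fin r → ℝ, ∑ j ∈ s, p j * g j = ∑ j, p j * g j := by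
    intro g
    refine Finset.sum_subset (Finset.subset_univ _) (fun j _ hj => ?_)
    rw [ms, not_lt] at hj
    rw [le_antisymm hj (hp j), zero_mul]
  have s1 : ∑ j ∈ s, p j = r := by simpa [hs] using sm (fun _ => 1)
  have ne : s.Nonempty := by
    rw [Finset.nonempty_iff_ne_empty]
    rintro rfl
    simp at s1
    linarith
  have ez : ∀ j, z j = Complex.exp ((z j).arg * Complex.I) := fun j => by
    have := Complex.norm_mul_exp_arg_mul_I (z j)
    rw [hz j] at this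
    simpa using this.symm
  have c := red s ne (fun j => (z j).arg) (fun j => p j / r)
    (fun j => ⟨Complex.neg_pi_lt_arg _, Complex.arg_le_pi _⟩)
    (fun j hj => div_pos ((ms j).mp hj) r0) (by rw [← Finset.sum_div, s1, div_self r0.ne'])
    (log K / r - log 2) (fun x hx => ?_)
  · have l2 : 0 < log 2 := log_pos one_lt_two
    have cs : (s.card : ℝ) ≤ r := by
      have := Finset.card_le_univ s
      rw [Fintype.card_fin] at this
      exact_mod_cast this
    have c0 : (0:ℝ) < s.card := by exact_mod_cast Finset.card_pos.mpr ne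
    have c2 := div_le_div_of_nonneg_left l2.le c0 cs
    have c3 : log 2 ≤ log K := by
      refine le_of_mul_le_mul_right (a := 1 / (r:ℝ)) ?_ (one_div_pos.mpr r0)
      rw [mul_one_div, mul_one_div]; linarith
    rw [← hK]
    rcases K0.eq_or_lt with h | h
    · rw [← h, log_zero] at c3; linarith
    · exact (log_le_log_iff two_pos h).mp c3
  · have hx' : ∀ j, 0 < p j → 0 < ‖Complex.exp (x * Complex.I) - z j‖ := by
      intro j hj
      rw [ez j, nrm]
      exact mul_pos two_pos (abs_pos.mpr (hx j ((ms j).mpr hj)))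
    have pos : ∀ j, 0 < ‖Complex.exp (x * Complex.I) - z j‖ ^ (p j) := by
      intro j
      rcases (hp j).eq_or_lt with h | h
      · rw [← h, rpow_zero]; exact one_pos
      · exact rpow_pos_of_pos (hx' j h) _
    have le : ∏ j, ‖Complex.exp (x * Complex.I) - z j‖ ^ (p j) ≤ K := by
      rw [hK]
      exact hm (show Complex.exp (x * Complex.I) ∈ Metric.sphere (0:ℂ) 1 by simp)
    have l1 := log_le_log (Finset.prod_pos (fun j _ => pos j)) le
    rw [log_prod (fun j _ => (pos j).ne')] at l1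
    have e1 : ∀ j, log (‖Complex.exp (x * Complex.I) - z j‖ ^ (p j)) =
        p j * log ‖Complex.exp (x * Complex.I) - z j‖ := by
      intro j
      rcases (hp j).eq_or_lt with h | h
      · rw [← h]; simp
      · exact log_rpow (hx' j h) _
    rw [Finset.sum_congr rfl (fun j _ => e1 j), ← sm] at l1
    have e2 : ∀ j ∈ s, p j * log ‖Complex.exp (x * Complex.I) - z j‖ =
        p j * log 2 + r * (p j / r * log (sin ((x - (z j).arg) / 2))) := by
      intro j hj
      conv_lhs => rw [ez j, nrm, log_mul two_ne_zero (abs_ne_zero.mpr (hx j hj)), log_abs]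
      field_simp
    rw [Finset.sum_congr rfl e2, Finset.sum_add_distrib, ← Finset.sum_mul, ← Finset.mul_sum,
      s1] at l1
    rw [le_sub_iff_add_le, le_div_iff₀ r0]
    linarith

end Pool.Agent.H.MP_280d4a_an
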